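import Pool.Agent.K7.H67.GBF.Pri
import Pool.Agent.K7.H67.VDC.Smooth

set_option autoImplicit false

/-!
# Windows of primes and equidistributed families
-/

namespace Pool.Agent.K7.H67.GBF

open Finset Filter

lemma good_mono {N m : ℕ} {Z Z' : ℝ} (h : ∀ n : ℕ, m ≤ n → (n : ℝ) ≤ Z → (n : ℝ) ≤ Z') (hG : Good N m Z') : Good N m Z := by
  intro a ha1 ha g hg n hmn hn
  exact hG a ha1 ha g hg n hmn (h n hmn hn)

/-- the range for windows -/
lemma range_sqrt {h n : ℕ} (hn : 3 ≤ n) (hnh : (n : ℝ) ≤ Real.exp (Real.log h ^ (1 / 4 : ℝ) / 12)) :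
    (n : ℝ) ≤ Real.exp (Real.log (Nat.sqrt h) ^ (1 / 4 : ℝ) / 10) := by
  refine hnh.trans (Real.exp_le_exp.2 ?_)
  have hlh : 0 ≤ Real.log h := Real.log_natCast_nonneg h
  have h1 : (1 : ℝ) ≤ Real.log h ^ (1 / 4 : ℝ) / 12 := by
    have h2 : Real.exp 1 ≤ Real.exp (Real.log h ^ (1 / 4 : ℝ) / 12) := by
      have h3 := Real.exp_one_lt_d9
      have h4 : (3 : ℝ) ≤ n := by exact_mod_cast hn
      linarith
    exact Real.exp_le_exp.1 h2
  have h2 : (12 : ℝ) ^ 4 ≤ Real.log h := by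
    have h3 : (12 : ℝ) ≤ Real.log h ^ (1 / 4 : ℝ) := by linarith
    have h4 := pow_le_pow_left₀ (by norm_num) h3 4
    rwa [← Real.rpow_natCast (Real.log h ^ (1 / 4 : ℝ)), ← Real.rpow_mul hlh,
      show (1 / 4 : ℝ) * ((4 : ℕ) : ℝ) = 1 by norm_num, Real.rpow_one] at h4
  have hh0 : 0 < h := by
    rcases Nat.eq_zero_or_pos h with h0 | h0
    · rw [h0] at h2; norm_num at h2
    · exact h0
  have hh0' : (0 : ℝ) < h := by exact_mod_cast hh0
  have hs0 : 0 < Nat.sqrt h := Nat.sqrt_pos.2 hh0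
  have h3 : (h : ℝ) ≤ (2 * (Nat.sqrt h : ℝ)) ^ 2 := by
    have h4 : h < (Nat.sqrt h + 1) * (Nat.sqrt h + 1) := Nat.lt_succ_sqrt h
    have h5 : (Nat.sqrt h + 1) * (Nat.sqrt h + 1) ≤ (2 * Nat.sqrt h) ^ 2 := by
      rw [pow_two]
      exact Nat.mul_le_mul (by omega) (by omega)
    exact_mod_cast h4.le.trans h5
  have h4 : Real.log h ≤ 2 * (Real.log 2 + Real.log (Nat.sqrt h)) := by
    have h5 := Real.log_le_log hh0' h3
    have hs0' : (0 : ℝ) < Nat.sqrt h := by exact_mod_cast hs0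
    rw [Real.log_pow, Real.log_mul (by norm_num) hs0'.ne'] at h5
    exact_mod_cast h5
  have hl2 := Real.log_two_lt_d9
  have h5 : Real.log h ≤ (12 / 10) ^ 4 * Real.log (Nat.sqrt h) := by
    nlinarith
  have h6 : Real.log h ^ (1 / 4 : ℝ) ≤ 12 / 10 * Real.log (Nat.sqrt h) ^ (1 / 4 : ℝ) := by
    calc Real.log h ^ (1 / 4 : ℝ) ≤ ((12 / 10) ^ 4 * Real.log (Nat.sqrt h)) ^ (1 / 4 : ℝ) :=
          Real.rpow_le_rpow hlh h5 (by norm_num)
      _ = 12 / 10 * Real.log (Nat.sqrt h) ^ (1 / 4 : ℝ) := by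
          rw [Real.mul_rpow (by norm_num) (Real.log_natCast_nonneg _)]
          congr 1
          rw [← Real.rpow_natCast, ← Real.rpow_mul (by norm_num)]
          norm_num
  linarith

open Classical in
/-- the number of the exceptional members -/
noncomputable def exc {ι : Type} (T : Finset ι) (t : ι → ℕ) (m : ℕ) (Z : ℝ) : ℕ := (T.filter fun i => ¬ Good (t i) m Z).card

lemma exc_mono {ι : Type} (T : Finset ι) (t : ι → ℕ) {m : ℕ} {Z Z' : ℝ}
    (h : ∀ n : ℕ, m ≤ n → (n : ℝ) ≤ Z → (n : ℝ) ≤ Z') : exc T t m Z ≤ exc T t m Z' := by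
  classical
  unfold exc
  apply card_le_card
  intro i hi
  rw [mem_filter] at hi ⊢
  exact ⟨hi.1, fun hG => hi.2 (good_mono h hG)⟩

lemma spread_of_equi {ι : Type} (T : Finset ι) (t : ι → ℕ) (X : ℕ) (h : CUB.EquiD T t X) : Spread T t X (2 * T.card) := by
  intro q hq1 hqX r
  have hq0 : (0 : ℝ) < q := by exact_mod_cast hq1
  have hqX' : (q : ℝ) ≤ X := by exact_mod_cast hqX
  have h1 := (abs_le.1 (h q hq1 hqX (r % q) (Nat.mod_lt _ (by omega)))).2
  have h2 : (T.filter fun i => t i ≡ r [MOD q]) = T.filter fun i => t i % q = r % q := rfl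
  rw [h2]
  have h3 : (T.card : ℝ) / X ≤ T.card / q := div_le_div_of_nonneg_left (Nat.cast_nonneg _) hq0 hqX'
  have h4 : (1 : ℝ) ≤ Real.exp (Real.log q ^ (1 / 4 : ℝ) / 10) := Real.one_le_exp (by
    have := Real.rpow_nonneg (Real.log_natCast_nonneg q) (1 / 4 : ℝ)
    positivity)
  have h5 : (0 : ℝ) ≤ 2 * T.card / q := by positivity
  have h6 : 2 * (T.card : ℝ) / q = T.card / q + T.card / q := by ring
  calc ((T.filter fun i => t i % q = r % q).card : ℝ) ≤ 2 * T.card / q := by rw [h6]; linarith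
    _ ≤ _ := le_mul_of_one_le_right h5 h4

/-- all applications -/
theorem apps : ∃ m₀ : ℕ, 1 ≤ m₀ ∧
    (∀ X m : ℕ, m₀ ≤ m → ∀ (ι : Type) (T : Finset ι) (t : ι → ℕ) (M : ℝ), 0 ≤ M → Spread T t X M →
      (exc T t m (Real.exp (Real.log X ^ (1 / 4 : ℝ) / 10)) : ℝ) ≤ 2 * M / m) ∧
    (∀ (α : ℕ) (β : ℤ) (y h m : ℕ), 1 ≤ α → 2 ≤ h → m₀ ≤ m →
      (exc (primeSet α β y h) id m (Real.exp (Real.log h ^ (1 / 4 : ℝ) / 12)) : ℝ) ≤
        132000000 * ((α : ℝ) / Nat.totient α) * h / (m * Real.log h)) ∧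
    (∀ η : ℝ, 0 < η → ∃ N₀ : ℕ, ∀ N : ℕ, N₀ ≤ N → ∀ m : ℕ, m₀ ≤ m → ∀ (ι : Type) (T : Finset ι) (t : ι → ℕ),
      (∀ X : ℕ, (X : ℝ) ≤ (N : ℝ) ^ η → CUB.EquiD T t X) →
      (exc T t m (Real.exp ((η / 2 * Real.log N) ^ (1 / 4 : ℝ) / 10)) : ℝ) ≤ 4 * T.card / m) := by
  obtain ⟨m₁, -, hfam⟩ := family
  have hfam' : ∀ X m : ℕ, m₁ ≤ m → ∀ (ι : Type) (T : Finset ι) (t : ι → ℕ) (M : ℝ), 0 ≤ M → Spread T t X M →
      (exc T t m (Real.exp (Real.log X ^ (1 / 4 : ℝ) / 10)) : ℝ) ≤ 2 * M / m := by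
    intro X m hm ι T t M hM hT
    exact hfam X m hm ι T t M hM hT
  refine ⟨max m₁ 3, le_trans (by norm_num) (le_max_right _ _), ?_, ?_, ?_⟩
  · intro X m hm
    exact hfam' X m ((le_max_left _ _).trans hm)
  · intro α β y h m hα hh hm
    have hm1 : m₁ ≤ m := (le_max_left _ _).trans hm
    have hm3 : 3 ≤ m := (le_max_right _ _).trans hm
    have hlh : 0 < Real.log h := Real.log_pos (by exact_mod_cast (by omega : 1 < h))
    have hM : (0 : ℝ) ≤ 66000000 * ((α : ℝ) / Nat.totient α) * h / Real.log h := by positivity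
    have h1 := hfam' (Nat.sqrt h) m hm1 ℕ (primeSet α β y h) id _ hM (primes_spread α β y h hα hh)
    have h2 := exc_mono (primeSet α β y h) id (m := m) (Z := Real.exp (Real.log h ^ (1 / 4 : ℝ) / 12))
      (Z' := Real.exp (Real.log (Nat.sqrt h) ^ (1 / 4 : ℝ) / 10))
      (fun n hmn hn => range_sqrt (hm3.trans hmn) hn)
    have hm0 : (0 : ℝ) < m := by exact_mod_cast (by omega : 0 < m)
    refine (Nat.cast_le.2 h2).trans (h1.trans (le_of_eq ?_))
    field_simp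
    ring
  · intro η hη
    obtain ⟨N₀, hN₀⟩ : ∃ N₀ : ℕ, ∀ N : ℕ, N₀ ≤ N → (2 : ℝ) ≤ (N : ℝ) ^ (η / 2) :=
      Filter.eventually_atTop.1 (((tendsto_rpow_atTop (by positivity : (0 : ℝ) < η / 2)).comp
        tendsto_natCast_atTop_atTop).eventually (Filter.eventually_ge_atTop _))
    refine ⟨N₀ + 1, fun N hN m hm ι T t hT => ?_⟩
    have hN1 : (1 : ℝ) ≤ N := by exact_mod_cast (by omega : 1 ≤ N)
    have hN0 : (0 : ℝ) < N := by linarith
    have h0 := hN₀ N (by omega)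
    obtain ⟨X, hX⟩ : ∃ X : ℕ, X = ⌊(N : ℝ) ^ η⌋₊ := ⟨_, rfl⟩
    have hXle : (X : ℝ) ≤ (N : ℝ) ^ η := by rw [hX]; exact Nat.floor_le (by positivity)
    have hXge : (N : ℝ) ^ (η / 2) ≤ X := by
      have h3 : (N : ℝ) ^ η = (N : ℝ) ^ (η / 2) * (N : ℝ) ^ (η / 2) := by
        rw [← Real.rpow_add hN0]
        congr 1
        ring
      have h4 : (N : ℝ) ^ η < X + 1 := by rw [hX]; exact Nat.lt_floor_add_one _
      rw [h3] at h4
      nlinarith
    have h1 := hfam' X m ((le_max_left _ _).trans hm) ι T t (2 * T.card) (by positivity) (spread_of_equi T t X (hT X hXle))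
    have h2 : Real.exp ((η / 2 * Real.log N) ^ (1 / 4 : ℝ) / 10) ≤ Real.exp (Real.log X ^ (1 / 4 : ℝ) / 10) := by
      apply Real.exp_le_exp.2
      apply div_le_div_of_nonneg_right _ (by norm_num)
      apply Real.rpow_le_rpow (by have := Real.log_nonneg hN1; positivity) _ (by norm_num)
      rw [← Real.log_rpow hN0]
      exact Real.log_le_log (by positivity) hXge
    have h3 := exc_mono T t (m := m) (fun n _ hn => le_trans hn h2)
    refine (Nat.cast_le.2 h3).trans (h1.trans (le_of_eq ?_))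
    ring

end Pool.Agent.K7.H67.GBF
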