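import Pool.Agent.K7.H91.GB.Final

set_option autoImplicit false

/-!
# The exceptional members of a family of numbers

The sets of exceptional `N` of helper91 (`Pool/Agent/K7/H91/GB`) are unions of few residue classes to moduli up to
`2 ^ (2 R)`, so that they can be counted in all families which have not too many members in these classes.
-/

namespace Pool.Agent.K7.H67.GBF

open Finset Pool.Agent.K7.H91.GB

variable {ι : Type}

/-- each residue class modulo `q ≤ Y` contains at most `H / q` members of the family -/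
def Spr (T : Finset ι) (t : ι → ℕ) (Y H : ℕ) : Prop :=
  ∀ q : ℕ, 1 ≤ q → q ≤ Y → ∀ r : ℕ, (T.filter fun i => t i ≡ r [MOD q]).card * q ≤ H

lemma spr_sub {T : Finset ι} {t : ι → ℕ} {Y H : ℕ} (h : Spr T t Y H) {q : ℕ} (hq1 : 1 ≤ q) (hqY : q ≤ Y)
    (S : Finset ι) (hS : S ⊆ T) (hc : ∀ a ∈ S, ∀ b ∈ S, t a ≡ t b [MOD q]) : S.card * q ≤ H := by
  rcases S.eq_empty_or_nonempty with he | ⟨b, hb⟩
  · rw [he]; simp
  · refine (Nat.mul_le_mul_right _ (card_le_card ?_)).trans (h q hq1 hqY (t b))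
    intro a ha
    rw [mem_filter]
    exact ⟨hS ha, hc a ha b hb⟩

lemma cardA {T : Finset ι} {t : ι → ℕ} {Y H : ℕ} (h : Spr T t Y H) (R : ℕ) (hY : 1 ≤ Y) :
    (T.filter fun i => t i < R).card * Y ≤ R * H := by
  classical
  have h1 : (T.filter fun i => t i < R) ⊆ (range R).biUnion fun v => T.filter fun i => t i = v := by
    intro i hi
    rw [mem_filter] at hi
    rw [mem_biUnion]
    exact ⟨t i, mem_range.2 hi.2, mem_filter.2 ⟨hi.1, rfl⟩⟩
  calc (T.filter fun i => t i < R).card * Y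
      ≤ (∑ v ∈ range R, (T.filter fun i => t i = v).card) * Y :=
        Nat.mul_le_mul_right _ ((card_le_card h1).trans card_biUnion_le)
    _ = ∑ v ∈ range R, (T.filter fun i => t i = v).card * Y := sum_mul _ _ _
    _ ≤ ∑ _v ∈ range R, H := by
        refine sum_le_sum fun v _ => spr_sub h hY le_rfl _ (filter_subset _ _) ?_
        intro a ha b hb
        rw [mem_filter] at ha hb
        rw [ha.2, hb.2]
    _ = R * H := by rw [sum_const, card_range, smul_eq_mul]

lemma card_dvd {T : Finset ι} {t : ι → ℕ} {Y H : ℕ} (h : Spr T t Y H) {e : ℕ} (he1 : 1 ≤ e) (heY : e ≤ Y) (n : ℕ) :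
    (T.filter fun i => n < 2 * t i ∧ e ∣ 2 * t i - n).card * e ≤ 2 * H := by
  obtain ⟨e', he', hdd⟩ : ∃ e', (e = e' ∨ e = 2 * e') ∧ ∀ x : ℤ, (e : ℤ) ∣ 2 * x → (e' : ℤ) ∣ x := by
    rcases Nat.even_or_odd' e with ⟨e', h1 | h1⟩
    · refine ⟨e', Or.inr h1, fun x hx => ?_⟩
      rw [h1] at hx
      push_cast at hx
      exact Int.dvd_of_mul_dvd_mul_left (by norm_num) hx
    · refine ⟨e, Or.inl rfl, fun x hx => ?_⟩
      have h2 : IsCoprime (e : ℤ) 2 := by
        refine ⟨1, -(e' : ℤ), ?_⟩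
        rw [h1]
        push_cast
        ring
      exact h2.dvd_of_dvd_mul_left hx
  have h1 : (T.filter fun i => n < 2 * t i ∧ e ∣ 2 * t i - n).card * e' ≤ H := by
    apply spr_sub h (by omega) (by omega) _ (filter_subset _ _)
    intro a ha b hb
    rw [mem_filter] at ha hb
    rw [Nat.modEq_iff_dvd]
    apply hdd
    have h2 : (e : ℤ) ∣ ((2 * t a - n : ℕ) : ℤ) := Int.natCast_dvd_natCast.2 ha.2.2
    have h3 : (e : ℤ) ∣ ((2 * t b - n : ℕ) : ℤ) := Int.natCast_dvd_natCast.2 hb.2.2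
    rw [Nat.cast_sub ha.2.1.le] at h2
    rw [Nat.cast_sub hb.2.1.le] at h3
    have h4 := dvd_sub h3 h2
    push_cast at h4
    have e1 : (2 * (t b : ℤ) - n) - (2 * (t a : ℤ) - n) = 2 * ((t b : ℤ) - t a) := by ring
    rwa [e1] at h4
  generalize (T.filter fun i => n < 2 * t i ∧ e ∣ 2 * t i - n).card = s at h1 ⊢
  rcases he' with he' | he'
  · rw [he']; omega
  · calc s * e = 2 * (s * e') := by rw [he']; ring
      _ ≤ 2 * H := Nat.mul_le_mul_left _ h1

lemma cardB {T : Finset ι} {t : ι → ℕ} {Y H : ℕ} (h : Spr T t Y H) (b W n : ℕ) (hb : 2 ^ b ≤ Y) :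
    (T.filter fun i => n < 2 * t i ∧ W < tau (2 ^ b) (2 * t i - n)).card * W ≤ 2 * H * (b + 1) := by
  classical
  have h1 : (T.filter fun i => n < 2 * t i ∧ W < tau (2 ^ b) (2 * t i - n)).card * W ≤
      ∑ i ∈ T.filter (fun i => n < 2 * t i), tau (2 ^ b) (2 * t i - n) := by
    rw [← smul_eq_mul, ← sum_const]
    refine (sum_le_sum (g := fun i => tau (2 ^ b) (2 * t i - n)) ?_).trans
      (sum_le_sum_of_subset ?_)
    · intro i hi
      exact (mem_filter.1 hi).2.2.le
    · intro i hi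
      rw [mem_filter] at hi ⊢
      exact ⟨hi.1, hi.2.1⟩
  have h2 : ∑ i ∈ T.filter (fun i => n < 2 * t i), tau (2 ^ b) (2 * t i - n) ≤
      ∑ e ∈ Icc 1 (2 ^ b), (T.filter fun i => n < 2 * t i ∧ e ∣ 2 * t i - n).card := by
    have h3 : ∀ i ∈ T.filter (fun i => n < 2 * t i), tau (2 ^ b) (2 * t i - n) ≤
        ∑ e ∈ Icc 1 (2 ^ b), if e ∣ 2 * t i - n then 1 else 0 := by
      intro i hi
      rw [mem_filter] at hi
      rw [← card_filter]
      unfold tau
      apply card_le_card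
      intro e he
      rw [mem_filter, Nat.mem_divisors] at he
      rw [mem_filter, mem_Icc]
      exact ⟨⟨Nat.pos_of_dvd_of_pos he.1.1 (by omega), he.2.le⟩, he.1.1⟩
    refine (sum_le_sum h3).trans ?_
    rw [sum_comm]
    refine sum_le_sum fun e _ => ?_
    rw [← card_filter, filter_filter]
  refine h1.trans (h2.trans ?_)
  have h3 : ((∑ e ∈ Icc 1 (2 ^ b), (T.filter fun i => n < 2 * t i ∧ e ∣ 2 * t i - n).card : ℕ) : ℝ) ≤
      ((2 * H : ℕ) : ℝ) * (b + 1) := by
    rw [Nat.cast_sum]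
    calc ∑ e ∈ Icc (1 : ℕ) (2 ^ b), ((T.filter fun i => n < 2 * t i ∧ e ∣ 2 * t i - n).card : ℝ)
        ≤ ∑ e ∈ Icc (1 : ℕ) (2 ^ b), ((2 * H : ℕ) : ℝ) * (e : ℝ)⁻¹ := by
          refine sum_le_sum fun e he => ?_
          rw [mem_Icc] at he
          have h4 := card_dvd h he.1 (he.2.trans hb) n
          have h5 : (0 : ℝ) < e := by exact_mod_cast he.1
          rw [← div_eq_mul_inv, le_div_iff₀ h5]
          exact_mod_cast h4
      _ = ((2 * H : ℕ) : ℝ) * ((harmonic (2 ^ b) : ℚ) : ℝ) := by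
          rw [← mul_sum, harmonic_eq_sum_Icc]
          push_cast
          rfl
      _ ≤ ((2 * H : ℕ) : ℝ) * (b + 1) := by
          refine mul_le_mul_of_nonneg_left ?_ (Nat.cast_nonneg _)
          have h3 := harmonic_le_one_add_log (2 ^ b)
          have h4 : Real.log ((2 ^ b : ℕ) : ℝ) ≤ b := by
            push_cast
            rw [Real.log_pow]
            have h7 : Real.log 2 ≤ 1 := by
              have := Real.log_two_lt_d9; linarith
            nlinarith [Nat.cast_nonneg (α := ℝ) b]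
          linarith
  exact_mod_cast h3

lemma lt_of_mem_codes {U Dm E w B J : ℕ} (hB : U + 2 * Dm < 2 ^ B) :
    ∀ {c : List (ℕ × ℕ × ℕ)}, c ∈ codes U Dm E w J → ∀ j ∈ c, j.2.2 < 2 ^ B := by
  have hfew : ∀ n D G : ℕ, n < U + 1 → D < Dm → G ∈ fewDiv w (n + 2 * D) → G < 2 ^ B := by
    intro n D G hn hD hG
    rw [mem_fewDiv] at hG
    have := Nat.le_of_dvd (Nat.pos_of_ne_zero hG.1.2) hG.1.1
    omega
  induction J with
  | zero => intro c hc; simp only [codes, mem_singleton] at hc; simp [hc]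
  | succ J ih =>
    intro c hc
    simp only [codes, mem_biUnion, mem_image] at hc
    obtain ⟨a, ha, j, hj, rfl⟩ := hc
    intro j' hj'
    rw [List.mem_cons] at hj'
    rcases hj' with rfl | hj'
    · rcases a with _ | ⟨⟨n', D', G'⟩, l'⟩
      · unfold Pool.Agent.K7.H91.GB.ext at hj
        simp only [mem_biUnion, mem_product, mem_range, mem_image] at hj
        obtain ⟨⟨n, D⟩, ⟨h1, h2⟩, G, hG, rfl⟩ := hj
        exact hfew n D G h1 h2 hG
      · unfold Pool.Agent.K7.H91.GB.ext at hj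
        simp only [mem_biUnion, mem_product, mem_range] at hj
        obtain ⟨⟨n, D⟩, ⟨h1, h2⟩, h3⟩ := hj
        split_ifs at h3 with h4
        · rw [mem_image] at h3
          obtain ⟨G, hG, rfl⟩ := h3
          exact hfew n _ G h1 h4 hG
        · simp at h3
    · exact ih ha j' hj'

/-- a divisor of the least common multiple which is not too large -/
lemma peel {Y Bd : ℕ} (hY : 1 ≤ Y) (l : List ℕ) (hpos : ∀ x ∈ l, 0 < x) (hlt : ∀ x ∈ l, x < Bd) :
    ∃ M, M ∣ lcmL l ∧ 1 ≤ M ∧ M ≤ Y ∧ (M = lcmL l ∨ Y < M * Bd) := by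
  induction l with
  | nil => exact ⟨1, by simp [lcmL], le_rfl, hY, Or.inl (by simp [lcmL])⟩
  | cons x l ih =>
    obtain ⟨M, h1, h2, h3, h4⟩ := ih (fun y hy => hpos y (by simp [hy])) (fun y hy => hlt y (by simp [hy]))
    have hx := hpos x (by simp)
    have hxB := hlt x (by simp)
    rcases h4 with h4 | h4
    · by_cases h5 : lcmL (x :: l) ≤ Y
      · refine ⟨lcmL (x :: l), dvd_rfl, ?_, h5, Or.inl rfl⟩
        exact lcmL_pos hpos
      · refine ⟨M, h1.trans ?_, h2, h3, Or.inr ?_⟩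
        · rw [lcmL_cons]; exact Nat.dvd_lcm_right _ _
        · rw [not_le, lcmL_cons] at h5
          have h6 : Nat.lcm x (lcmL l) ≤ x * lcmL l :=
            Nat.le_of_dvd (Nat.mul_pos hx (lcmL_pos fun y hy => hpos y (by simp [hy]))) (Nat.lcm_dvd_mul _ _)
          rw [h4]
          calc Y < Nat.lcm x (lcmL l) := h5
            _ ≤ x * lcmL l := h6
            _ ≤ Bd * lcmL l := Nat.mul_le_mul_right _ hxB.le
            _ = lcmL l * Bd := mul_comm _ _
    · refine ⟨M, h1.trans ?_, h2, h3, Or.inr h4⟩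
      rw [lcmL_cons]; exact Nat.dvd_lcm_right _ _

lemma card_badF {T : Finset ι} {t : ι → ℕ} {Y H : ℕ} (h : Spr T t Y H) {U Dm E w B J P X : ℕ} (hU : 1 ≤ U)
    (hB : U + 2 * Dm < 2 ^ B) (hY : 1 ≤ Y) :
    (T.filter fun i => t i ∈ bad U Dm E w X J P).card * (P * Y) ≤
      (codes U Dm E w J).card * (H * (U ^ (J * J) * Y + 2 ^ B * P)) := by
  classical
  set f : List (ℕ × ℕ × ℕ) → Finset ι := fun c =>
    if (∀ j ∈ c, 0 < j.2.2) ∧ (c.map (fun j => j.2.2)).Pairwise (fun x y => Nat.gcd x y ≤ U) ∧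
      P ≤ (c.map (fun j => j.2.2)).prod then
      T.filter fun i => ∀ j ∈ c, j.2.2 ∣ t i + j.2.1 else ∅ with hf
  have hsub : (T.filter fun i => t i ∈ bad U Dm E w X J P) ⊆ (codes U Dm E w J).biUnion f := by
    intro i hi
    rw [mem_filter] at hi
    obtain ⟨hiT, hi⟩ := hi
    unfold bad at hi
    rw [mem_filter] at hi
    obtain ⟨hNX, c, hc, h1, h2, h3⟩ := hi
    rw [mem_biUnion]
    refine ⟨c, hc, ?_⟩
    rw [hf]
    simp only
    rw [if_pos ⟨fun j hj => (h1 j hj).1, h2, h3⟩, mem_filter]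
    exact ⟨hiT, fun j hj => (h1 j hj).2⟩
  calc (T.filter fun i => t i ∈ bad U Dm E w X J P).card * (P * Y)
      ≤ (∑ c ∈ codes U Dm E w J, (f c).card) * (P * Y) :=
        Nat.mul_le_mul_right _ ((card_le_card hsub).trans card_biUnion_le)
    _ = ∑ c ∈ codes U Dm E w J, (f c).card * (P * Y) := sum_mul _ _ _
    _ ≤ ∑ _c ∈ codes U Dm E w J, H * (U ^ (J * J) * Y + 2 ^ B * P) := ?_
    _ = _ := by rw [sum_const, smul_eq_mul]
  refine sum_le_sum fun c hc => ?_
  rw [hf]
  simp only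
  split_ifs with h0
  · obtain ⟨h1, h2, h3⟩ := h0
    have hlen := length_of_mem_codes hc
    have hlt := lt_of_mem_codes hB hc
    set l := c.map (fun j => j.2.2) with hl
    have hlpos : ∀ y ∈ l, 0 < y := by
      intro y hy
      rw [hl, List.mem_map] at hy
      obtain ⟨j, hj, rfl⟩ := hy
      exact h1 j hj
    have hllt : ∀ y ∈ l, y < 2 ^ B := by
      intro y hy
      rw [hl, List.mem_map] at hy
      obtain ⟨j, hj, rfl⟩ := hy
      exact hlt j hj
    have h4 := prod_le_lcmL hU hlpos h2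
    have hll : l.length = J := by rw [hl, List.length_map, hlen]
    rw [hll] at h4
    obtain ⟨M, hM1, hM2, hM3, hM4⟩ := peel hY l hlpos hllt
    have h5 : (T.filter fun i => ∀ j ∈ c, j.2.2 ∣ t i + j.2.1).card * M ≤ H := by
      apply spr_sub h hM2 hM3 _ (filter_subset _ _)
      intro a ha b hb
      rw [mem_filter] at ha hb
      rw [Nat.modEq_iff_dvd]
      have h5 : lcmL l ∣ ((t b : ℤ) - t a).natAbs := by
        apply lcmL_dvd
        intro y hy
        rw [hl, List.mem_map] at hy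
        obtain ⟨j, hj, rfl⟩ := hy
        have h6 := Int.natCast_dvd_natCast.2 (ha.2 j hj)
        have h7 := Int.natCast_dvd_natCast.2 (hb.2 j hj)
        have h8 := dvd_sub h7 h6
        push_cast at h8
        rw [add_sub_add_right_eq_sub] at h8
        exact Int.natCast_dvd.1 h8
      exact Int.natCast_dvd.2 (hM1.trans h5)
    set s := (T.filter fun i => ∀ j ∈ c, j.2.2 ∣ t i + j.2.1).card
    rcases hM4 with hM4 | hM4
    · rw [hM4] at h5
      calc s * (P * Y) ≤ s * ((lcmL l * U ^ (J * J)) * Y) := by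
            gcongr
            exact h3.trans h4
        _ = (s * lcmL l) * (U ^ (J * J) * Y) := by ring
        _ ≤ H * (U ^ (J * J) * Y) := Nat.mul_le_mul_right _ h5
        _ ≤ H * (U ^ (J * J) * Y + 2 ^ B * P) := Nat.mul_le_mul_left _ (Nat.le_add_right _ _)
    · calc s * (P * Y) ≤ s * (P * (M * 2 ^ B)) := by gcongr
        _ = (s * M) * (2 ^ B * P) := by ring
        _ ≤ H * (2 ^ B * P) := Nat.mul_le_mul_right _ h5
        _ ≤ H * (U ^ (J * J) * Y + 2 ^ B * P) := Nat.mul_le_mul_left _ (Nat.le_add_left _ _)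
  · simp

end Pool.Agent.K7.H67.GBF
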