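import Pool.Agent.K7.H67.GBF.Scale

set_option autoImplicit false

/-!
# Almost all members of a family of numbers: the first terms of the recursion
-/

namespace Pool.Agent.K7.H67.GBF

open Finset Filter Pool.Agent.K7.H91.GB

/-- each residue class modulo `q ≤ X` contains at most `M / q` members of the family, up to a small factor -/
def Spread {ι : Type} (T : Finset ι) (t : ι → ℕ) (X : ℕ) (M : ℝ) : Prop :=
  ∀ q : ℕ, 1 ≤ q → q ≤ X → ∀ r : ℕ,
    ((T.filter fun i => t i ≡ r [MOD q]).card : ℝ) ≤ M / q * Real.exp (Real.log q ^ (1 / 4 : ℝ) / 10)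

/-- in the range `m ≤ n ≤ Z` the recursion is positive and has a small defect -/
def Good (N m : ℕ) (Z : ℝ) : Prop :=
  ∀ a : ℕ → ℤ, a 1 = (N : ℤ) - 2 →
    (∀ n : ℕ, 2 ≤ n → a n = a (n - 1) -
      ((Int.gcd (a (n - 1)) ((N : ℤ) - (-1) ^ n * ((N : ℤ) - n)) : ℕ) : ℤ)) →
    ∀ g : ℕ, IsLeast {n : ℕ | 2 ≤ n ∧ a n = 0} g →
      ∀ n : ℕ, m ≤ n → (n : ℝ) ≤ Z →
        n < g ∧ (N : ℝ) - n - Real.exp (200 * (Real.log n) ^ 3) ≤ (a n : ℝ)

lemma loss_le {L q : ℕ} (hL : 8 ≤ L) (hq1 : 1 ≤ q) (hq : q ≤ 2 ^ (2 * RR L)) :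
    Real.exp (Real.log q ^ (1 / 4 : ℝ) / 10) ≤ 2 ^ L := by
  obtain ⟨l1, l2⟩ := log2_bounds
  have hL' : (8 : ℝ) ≤ L := by exact_mod_cast hL
  have hq0 : (0 : ℝ) < q := by exact_mod_cast hq1
  have hlq0 : 0 ≤ Real.log q := Real.log_natCast_nonneg q
  set l := Real.log 2 with hl
  have h2 : ((2 * RR L : ℕ) : ℝ) ≤ 1296 * (L + 2) ^ 4 := by
    clear hq
    unfold RR qq Th KK
    push_cast
    have : (0 : ℝ) ≤ L := Nat.cast_nonneg L
    nlinarith [pow_nonneg this 2, pow_nonneg this 3]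
  have h3 : Real.log q ≤ ((2 * RR L : ℕ) : ℝ) * l := by
    have h4 : (q : ℝ) ≤ 2 ^ (2 * RR L) := by exact_mod_cast hq
    have h5 := Real.log_le_log hq0 h4
    rwa [Real.log_pow] at h5
  have h4 : Real.log q ≤ (10 * (L * l)) ^ 4 := by
    clear hq
    have h5 : ((L : ℝ) + 2) ^ 4 ≤ (1.25 * L) ^ 4 := pow_le_pow_left₀ (by positivity) (by linarith) 4
    have h6 : (0 : ℝ) ≤ (L : ℝ) ^ 4 := by positivity
    have hl3 : (0.3329 : ℝ) ≤ l ^ 3 := by
      calc (0.3329 : ℝ) ≤ 0.6931 ^ 3 := by norm_num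
        _ ≤ l ^ 3 := pow_le_pow_left₀ (by norm_num) l1.le 3
    have hl0 : 0 < l := by linarith
    calc Real.log q ≤ ((2 * RR L : ℕ) : ℝ) * l := h3
      _ ≤ (1296 * (L + 2) ^ 4) * l := mul_le_mul_of_nonneg_right h2 hl0.le
      _ ≤ (1296 * (1.25 * L) ^ 4) * l := by gcongr
      _ = (3164.0625 * (L : ℝ) ^ 4) * l := by ring
      _ ≤ (10 ^ 4 * (L : ℝ) ^ 4 * l ^ 3) * l := by
          apply mul_le_mul_of_nonneg_right _ hl0.le
          nlinarith
      _ = (10 * (L * l)) ^ 4 := by ring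
  have h5 : Real.log q ^ (1 / 4 : ℝ) ≤ 10 * (L * l) := by
    calc Real.log q ^ (1 / 4 : ℝ) ≤ ((10 * (L * l)) ^ 4) ^ (1 / 4 : ℝ) :=
          Real.rpow_le_rpow hlq0 h4 (by norm_num)
      _ = 10 * (L * l) := by
          rw [← Real.rpow_natCast, ← Real.rpow_mul (by positivity)]
          norm_num
  calc Real.exp (Real.log q ^ (1 / 4 : ℝ) / 10) ≤ Real.exp (L * l) := by
        apply Real.exp_le_exp.2
        linarith
    _ = 2 ^ L := by rw [hl, mul_comm, Real.exp_mul, Real.exp_log (by norm_num), Real.rpow_natCast]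

lemma spr_of {ι : Type} {T : Finset ι} {t : ι → ℕ} {X : ℕ} {M : ℝ} (hM : 0 ≤ M) (h : Spread T t X M) {L : ℕ} (hL : 8 ≤ L)
    (hX : 2 ^ (2 * RR L) ≤ X) : Spr T t (2 ^ (2 * RR L)) ⌊M * 2 ^ L⌋₊ := by
  intro q hq1 hqY r
  apply Nat.le_floor
  have h1 := h q hq1 (hqY.trans hX) r
  have h2 := loss_le hL hq1 hqY
  have hq0 : (0 : ℝ) < q := by exact_mod_cast hq1
  rw [Nat.cast_mul]
  calc ((T.filter fun i => t i ≡ r [MOD q]).card : ℝ) * q
      ≤ (M / q * Real.exp (Real.log q ^ (1 / 4 : ℝ) / 10)) * q := mul_le_mul_of_nonneg_right h1 hq0.le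
    _ = M * Real.exp (Real.log q ^ (1 / 4 : ℝ) / 10) := by field_simp
    _ ≤ M * 2 ^ L := mul_le_mul_of_nonneg_left h2 hM

open Classical in
/-- The number of the members of a family with a large defect. -/
theorem family : ∃ m₀ : ℕ, 1 ≤ m₀ ∧ ∀ X m : ℕ, m₀ ≤ m → ∀ (ι : Type) (T : Finset ι) (t : ι → ℕ) (M : ℝ), 0 ≤ M →
    Spread T t X M →
      ((T.filter fun i => ¬ Good (t i) m (Real.exp (Real.log X ^ (1 / 4 : ℝ) / 10))).card : ℝ) ≤ 2 * M / m := by
  obtain ⟨L1, hL1⟩ := eventually_atTop.1 ev_delta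
  refine ⟨max (2 ^ (max L1 8)) (⌈Real.exp 30⌉₊), ?_, fun X m hm ι T t M hM hT => ?_⟩
  · exact Nat.one_le_two_pow.trans (le_max_left _ _)
  have hm1 : 2 ^ (max L1 8) ≤ m := (le_max_left _ _).trans hm
  have hm2 : Real.exp 30 ≤ m := Nat.ceil_le.1 ((le_max_right _ _).trans hm)
  have hm0 : 0 < m := lt_of_lt_of_le (by positivity) hm1
  have hmL : m ≤ 2 ^ Nat.clog 2 m := Nat.le_pow_clog (by norm_num) m
  have hL0 : max L1 8 ≤ Nat.clog 2 m :=
    (Nat.pow_le_pow_iff_right (by norm_num)).1 (hm1.trans hmL)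
  have hL0a : L1 ≤ Nat.clog 2 m := (le_max_left _ _).trans hL0
  have hL0b : 8 ≤ Nat.clog 2 m := (le_max_right _ _).trans hL0
  set X' := T.sup t with hX'
  set Ls := (Icc (Nat.clog 2 m) X).filter fun L => 2 ^ (2 * RR L) ≤ X with hLs
  have hsub : (T.filter fun i => ¬ Good (t i) m (Real.exp (Real.log X ^ (1 / 4 : ℝ) / 10))) ⊆
      Ls.biUnion fun L => T.filter fun i => isExc L X' (t i) := by
    intro i hi
    rw [mem_filter] at hi
    obtain ⟨hiT, hi⟩ := hi
    by_contra hNE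
    apply hi
    intro a ha1 ha g hg n hmn hnT
    have hNX : t i ≤ X' := le_sup hiT
    have hnm : Real.exp 30 ≤ n := hm2.trans (by exact_mod_cast hmn)
    have hn0 : (0 : ℝ) < n := (Real.exp_pos _).trans_le hnm
    have ht : 30 ≤ Real.log n := (Real.le_log_iff_exp_le hn0).2 hnm
    have hlX : 0 ≤ Real.log X := Real.log_natCast_nonneg X
    have hX : 10 ^ 4 * (Real.log n) ^ 4 ≤ Real.log X := by
      have h1 : Real.log n ≤ (Real.log X) ^ (1 / 4 : ℝ) / 10 :=
        (Real.log_le_iff_le_exp hn0).2 hnT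
      have h2 : 10 * Real.log n ≤ (Real.log X) ^ (1 / 4 : ℝ) := by linarith
      have h3 : (10 * Real.log n) ^ 4 ≤ ((Real.log X) ^ (1 / 4 : ℝ)) ^ 4 :=
        pow_le_pow_left₀ (by linarith) h2 4
      have h4 : ((Real.log X) ^ (1 / 4 : ℝ)) ^ 4 = Real.log X := by
        rw [← Real.rpow_natCast, ← Real.rpow_mul hlX]
        norm_num
      rw [h4, mul_pow] at h3
      exact h3
    have hnn : 0 < n := by exact_mod_cast hn0
    have hnL : n ≤ 2 ^ Nat.clog 2 n := Nat.le_pow_clog (by norm_num) n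
    have hmn' : Nat.clog 2 m ≤ Nat.clog 2 n := Nat.clog_mono_right 2 hmn
    have hL : ((Nat.clog 2 n : ℕ) : ℝ) * Real.log 2 ≤ Real.log n + Real.log 2 := by
      have h1 : 2 ^ (Nat.clog 2 n).pred < n := by
        refine Nat.pow_pred_clog_lt_self (by norm_num) ?_
        by_contra hc
        have : n = 1 := by omega
        rw [this] at ht
        norm_num at ht
      have h2 : ((2 : ℝ)) ^ (Nat.clog 2 n).pred ≤ n := by exact_mod_cast h1.le
      have h3 := Real.log_le_log (by positivity) h2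
      rw [Real.log_pow] at h3
      have h4 : (((Nat.clog 2 n).pred : ℕ) : ℝ) = (Nat.clog 2 n : ℝ) - 1 := by
        rw [Nat.pred_eq_sub_one, Nat.cast_sub (by omega)]
        norm_num
      rw [h4] at h3
      linarith
    have hk := key ht hL hX
    have hk2 := key2 ht hL
    have hNL : ¬ isExc (Nat.clog 2 n) X' (t i) := by
      intro h
      apply hNE
      rw [mem_biUnion]
      refine ⟨Nat.clog 2 n, ?_, mem_filter.2 ⟨hiT, h⟩⟩
      rw [hLs, mem_filter, mem_Icc]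
      refine ⟨⟨hmn', ?_⟩, hk⟩
      have h1 : Nat.clog 2 n < 2 ^ Nat.clog 2 n := Nat.lt_two_pow_self
      have h2 : 2 ^ Nat.clog 2 n ≤ 2 ^ (2 * RR (Nat.clog 2 n)) :=
        Nat.pow_le_pow_right (by norm_num) (by
          have := L_lt_RR (Nat.clog 2 n)
          omega)
      omega
    have hN1 : 1 ≤ t i := by
      by_contra h0
      apply hNL
      left
      have : t i = 0 := by omega
      rw [this]
      positivity
    have hp := pos_of_good (by omega) hNX hN1 (fun h => hNL (exc_isExc h)) a ha1 ha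
    constructor
    · by_contra hc
      rw [not_lt] at hc
      have h1 := (hp g (by have := hg.1.1; omega) (hc.trans hnL)).1
      rw [hg.1.2] at h1
      exact lt_irrefl _ h1
    · have h1 := (hp n hnn hnL).2
      have h2 : ((t i : ℕ) : ℝ) - n - 2 ^ (qq (Nat.clog 2 n) * KK (Nat.clog 2 n)) ≤ (a n : ℝ) := by
        exact_mod_cast h1
      linarith
  have hcard : ∀ L ∈ Ls, ((T.filter fun i => isExc L X' (t i)).card : ℝ) ≤ M * (1 / 2) ^ L := by
    intro L hL
    rw [hLs, mem_filter, mem_Icc] at hL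
    have h1 := card_excF (X := X') (spr_of hM hT (by omega) hL.2) (hL1 L (by omega)) (by omega)
    have h2 : ((T.filter fun i => isExc L X' (t i)).card : ℝ) * 2 ^ (2 * L) ≤ M * 2 ^ L := by
      have h3 : (((T.filter fun i => isExc L X' (t i)).card * 2 ^ (2 * L) : ℕ) : ℝ) ≤ (⌊M * 2 ^ L⌋₊ : ℝ) := by
        exact_mod_cast h1
      push_cast at h3
      exact h3.trans (Nat.floor_le (by positivity))
    have h3 : ((T.filter fun i => isExc L X' (t i)).card : ℝ) * 2 ^ L ≤ M := by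
      have h4 : (0 : ℝ) < 2 ^ L := by positivity
      rw [two_mul, pow_add, ← mul_assoc] at h2
      exact le_of_mul_le_mul_right h2 h4
    rw [one_div, inv_pow, ← div_eq_mul_inv, le_div_iff₀ (by positivity)]
    exact h3
  calc ((T.filter fun i => ¬ Good (t i) m (Real.exp (Real.log X ^ (1 / 4 : ℝ) / 10))).card : ℝ)
      ≤ ∑ L ∈ Ls, ((T.filter fun i => isExc L X' (t i)).card : ℝ) := by
        exact_mod_cast (card_le_card hsub).trans card_biUnion_le
    _ ≤ ∑ L ∈ Ls, M * (1 / 2) ^ L := sum_le_sum hcard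
    _ = M * ∑ L ∈ Ls, ((1 : ℝ) / 2) ^ L := by rw [mul_sum]
    _ ≤ M * (2 * (1 / 2) ^ (Nat.clog 2 m)) := by
        refine mul_le_mul_of_nonneg_left ?_ hM
        refine le_trans ?_ (geom (Nat.clog 2 m) X)
        exact sum_le_sum_of_subset_of_nonneg (filter_subset _ _) fun _ _ _ => by positivity
    _ = 2 * M / 2 ^ (Nat.clog 2 m) := by rw [one_div, inv_pow]; ring
    _ ≤ 2 * M / m := by
        refine div_le_div_of_nonneg_left (by positivity) (by exact_mod_cast hm0) ?_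
        exact_mod_cast hmL

end Pool.Agent.K7.H67.GBF
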