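import Pool.Agent.K7.H67.GBF.Fam
import Pool.Agent.R481.TH.Tot
import Pool.Agent.H692R2.USS.T1

set_option autoImplicit false

/-!
# The numbers `N` for which `α N + β` is prime, in all windows
-/

namespace Pool.Agent.K7.H67.GBF

open Finset Filter

lemma log_le_loss (q : ℕ) : 1 + 2 * Real.log q ≤ 500000 * Real.exp (Real.log q ^ (1 / 4 : ℝ) / 10) := by
  have h0 : 0 ≤ Real.log q := Real.log_natCast_nonneg q
  obtain ⟨u, hu⟩ : ∃ u : ℝ, u = Real.log q ^ (1 / 4 : ℝ) := ⟨_, rfl⟩
  have hu0 : 0 ≤ u := by rw [hu]; positivity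
  have hu4 : u ^ 4 = Real.log q := by
    rw [hu, ← Real.rpow_natCast, ← Real.rpow_mul h0]
    norm_num
  rw [← hu, ← hu4]
  have h1 : (u / 10) ^ 4 / (Nat.factorial 4 : ℝ) ≤ Real.exp (u / 10) := Real.pow_div_factorial_le_exp _ (by positivity) 4
  have h2 : (1 : ℝ) ≤ Real.exp (u / 10) := Real.one_le_exp (by positivity)
  have h3 : (Nat.factorial 4 : ℝ) = 24 := by norm_num [Nat.factorial]
  rw [h3] at h1
  have h4 : (u / 10) ^ 4 / 24 = u ^ 4 / 240000 := by ring
  rw [h4, div_le_iff₀ (by norm_num)] at h1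
  linarith

/-- the `N` of the window with `α N + β` prime -/
noncomputable def primeSet (α : ℕ) (β : ℤ) (y h : ℕ) : Finset ℕ :=
  (Ioc y (y + h)).filter fun N => ((α : ℤ) * N + β).toNat.Prime

lemma prime_class (α : ℕ) (β : ℤ) (y h : ℕ) (hα : 1 ≤ α) {q : ℕ} (hq1 : 1 ≤ q) (r : ℕ) :
    (((primeSet α β y h).filter fun i => i ≡ r [MOD q]).card : ℝ) ≤
      22 * (((α * q : ℕ) : ℝ) / Nat.totient (α * q)) * ((h / q + 2 : ℕ) : ℝ) / Real.log ((h / q + 2 : ℕ) : ℝ) := by
  classical
  set S := (primeSet α β y h).filter fun i => i ≡ r [MOD q] with hS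
  rcases S.eq_empty_or_nonempty with he | hne
  · rw [he, card_empty, Nat.cast_zero]
    have h1 : 0 ≤ Real.log ((h / q + 2 : ℕ) : ℝ) := Real.log_natCast_nonneg _
    positivity
  · obtain ⟨n₀, hn₀, hmin⟩ : ∃ n₀ ∈ S, ∀ n ∈ S, n₀ ≤ n := ⟨S.min' hne, S.min'_mem hne, fun n hn => S.min'_le n hn⟩
    have hmem : ∀ n ∈ S, (y < n ∧ n ≤ y + h) ∧ ((α : ℤ) * n + β).toNat.Prime ∧ n ≡ r [MOD q] := by
      intro n hn
      rw [hS, mem_filter, primeSet, mem_filter, mem_Ioc] at hn
      exact ⟨hn.1.1, hn.1.2, hn.2⟩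
    have h0 := hmem n₀ hn₀
    set a := ((α : ℤ) * n₀ + β).toNat with ha
    have hapos : 0 < (α : ℤ) * n₀ + β := by
      have := h0.2.1.pos
      rw [ha] at this
      omega
    have ha' : (a : ℤ) = (α : ℤ) * n₀ + β := by rw [ha]; exact Int.toNat_of_nonneg hapos.le
    refine le_trans ?_ (Pool.Agent.H692R2.USS.t1_brun_titchmarsh a (α * q) (h / q + 2) (Nat.le_add_left 2 _)
      (Nat.mul_pos hα hq1))
    rw [Nat.cast_le]
    have hrep : ∀ n ∈ S, n₀ + (n - n₀) / q * q = n := by
      intro n hn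
      have h1 : n₀ ≡ n [MOD q] := h0.2.2.trans (hmem n hn).2.2.symm
      have h2 : q ∣ n - n₀ := (Nat.modEq_iff_dvd' (hmin n hn)).1 h1
      rw [Nat.div_mul_cancel h2]
      have := hmin n hn
      omega
    apply card_le_card_of_injOn (fun n => (n - n₀) / q)
    · intro n hn
      have hn' : n ∈ S := hn
      have h1 := hmem n hn'
      have h2 := hrep n hn'
      rw [mem_coe, mem_filter, mem_range]
      constructor
      · have h3 : (n - n₀) / q ≤ h / q := Nat.div_le_div_right (by omega)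
        show (n - n₀) / q < h / q + 2
        omega
      · show (a + (n - n₀) / q * (α * q)).Prime
        have h3 : (a + (n - n₀) / q * (α * q) : ℕ) = ((α : ℤ) * n + β).toNat := by
          have h4 : ((a + (n - n₀) / q * (α * q) : ℕ) : ℤ) = (α : ℤ) * n + β := by
            have h5 : (n : ℤ) = n₀ + ((n - n₀) / q : ℕ) * q := by exact_mod_cast h2.symm
            push_cast at h5 ⊢
            rw [ha']
            rw [h5]
            ring
          rw [← h4, Int.toNat_natCast]
        rw [h3]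
        exact h1.2.1
    · intro n hn n' hn' hnn
      have h1 := hrep n hn
      have h2 := hrep n' hn'
      simp only at hnn
      rw [← h1, ← h2, hnn]

lemma primes_spread (α : ℕ) (β : ℤ) (y h : ℕ) (hα : 1 ≤ α) (hh : 2 ≤ h) :
    Spread (primeSet α β y h) id (Nat.sqrt h) (66000000 * ((α : ℝ) / Nat.totient α) * h / Real.log h) := by
  intro q hq1 hqX r
  have hq0 : (0 : ℝ) < q := by exact_mod_cast hq1
  have hq2 : q * q ≤ h := Nat.le_sqrt.1 hqX
  have hh' : (2 : ℝ) ≤ h := by exact_mod_cast hh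
  have hh0 : (0 : ℝ) < h := by linarith
  have hlh : 0 < Real.log h := Real.log_pos (by linarith)
  have hφα : (0 : ℝ) < Nat.totient α := by exact_mod_cast Nat.totient_pos.2 hα
  have hφq : (0 : ℝ) < Nat.totient q := by exact_mod_cast Nat.totient_pos.2 hq1
  have hα0 : (0 : ℝ) < α := by exact_mod_cast hα
  have h1 := prime_class α β y h hα hq1 r
  have h2 : ((α * q : ℕ) : ℝ) / Nat.totient (α * q) ≤ ((α : ℝ) / Nat.totient α) * ((q : ℝ) / Nat.totient q) := by
    have h3 : ((Nat.totient α * Nat.totient q : ℕ) : ℝ) ≤ Nat.totient (α * q) := by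
      exact_mod_cast Nat.totient_super_multiplicative α q
    rw [div_mul_div_comm]
    push_cast at h3 ⊢
    exact div_le_div_of_nonneg_left (by positivity) (by positivity) h3
  have h3 : (q : ℝ) / Nat.totient q ≤ 500000 * Real.exp (Real.log q ^ (1 / 4 : ℝ) / 10) := by
    refine le_trans ?_ (log_le_loss q)
    rw [div_le_iff₀ hφq]
    have h4 := Pool.Agent.R481.TH.le_log_mul_totient q (by omega)
    have h5 : (q : ℝ) ≤ ((Nat.log 2 q : ℕ) + 1) * Nat.totient q := by exact_mod_cast h4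
    refine h5.trans (mul_le_mul_of_nonneg_right ?_ hφq.le)
    have h6 : ((Nat.log 2 q : ℕ) : ℝ) * Real.log 2 ≤ Real.log q := by
      have h7 : ((2 ^ Nat.log 2 q : ℕ) : ℝ) ≤ q := by exact_mod_cast Nat.pow_log_le_self 2 (by omega)
      have h8 := Real.log_le_log (by positivity) h7
      push_cast at h8
      rwa [Real.log_pow] at h8
    have h7 := Real.log_two_gt_d9
    have h8 : (0 : ℝ) ≤ (Nat.log 2 q : ℕ) := Nat.cast_nonneg _
    nlinarith
  set K := h / q + 2 with hK
  have hKge : (h : ℝ) / q ≤ K := by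
    rw [hK]
    have h4 := Nat.lt_div_mul_add (a := h) (b := q) (by omega)
    rw [div_le_iff₀ hq0]
    have h5 : h ≤ (h / q + 2) * q := by
      calc h ≤ h / q * q + q := h4.le
        _ ≤ (h / q + 2) * q := by nlinarith
    exact_mod_cast h5
  have hKle : (K : ℝ) ≤ 3 * (h / q) := by
    rw [hK]
    have h4 : ((h / q : ℕ) : ℝ) ≤ (h : ℝ) / q := Nat.cast_div_le
    have h5 : (1 : ℝ) ≤ (h : ℝ) / q := by
      rw [le_div_iff₀ hq0, one_mul]
      have : q ≤ h := by nlinarith
      exact_mod_cast this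
    push_cast
    linarith
  have hlogK : Real.log h / 2 ≤ Real.log K := by
    have h4 : Real.sqrt h ≤ (h : ℝ) / q := by
      rw [le_div_iff₀ hq0]
      have h5 : (q : ℝ) ≤ Real.sqrt h := by
        apply Real.le_sqrt_of_sq_le
        rw [pow_two]
        exact_mod_cast hq2
      calc Real.sqrt h * q ≤ Real.sqrt h * Real.sqrt h := mul_le_mul_of_nonneg_left h5 (Real.sqrt_nonneg _)
        _ = h := Real.mul_self_sqrt hh0.le
    rw [← Real.log_sqrt hh0.le]
    exact Real.log_le_log (Real.sqrt_pos.2 hh0) (h4.trans hKge)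
  have hK0 : (0 : ℝ) ≤ K := Nat.cast_nonneg _
  have hlogK0 : 0 < Real.log K := by linarith
  have hφαq : (0 : ℝ) ≤ ((α * q : ℕ) : ℝ) / Nat.totient (α * q) := by positivity
  have hE : 0 < Real.exp (Real.log q ^ (1 / 4 : ℝ) / 10) := Real.exp_pos _
  generalize Real.exp (Real.log q ^ (1 / 4 : ℝ) / 10) = E at h3 hE ⊢
  simp only [id]
  calc (((primeSet α β y h).filter fun i => i ≡ r [MOD q]).card : ℝ)
      ≤ 22 * (((α * q : ℕ) : ℝ) / Nat.totient (α * q)) * (K : ℝ) / Real.log K := h1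
    _ ≤ 22 * (((α : ℝ) / Nat.totient α) * (500000 * E)) * (3 * (h / q)) / (Real.log h / 2) := by
        have h4 : ((α * q : ℕ) : ℝ) / Nat.totient (α * q) ≤ ((α : ℝ) / Nat.totient α) * (500000 * E) :=
          h2.trans (mul_le_mul_of_nonneg_left h3 (by positivity))
        gcongr
    _ = 66000000 * ((α : ℝ) / Nat.totient α) * h / Real.log h / q * E := by
        field_simp
        ring

end Pool.Agent.K7.H67.GBF
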