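import Pool.Agent.K7.H67.GBF.Cnt

set_option autoImplicit false

/-!
# The number of the exceptional members of a family at one scale
-/

namespace Pool.Agent.K7.H67.GBF

open Finset Pool.Agent.K7.H91.GB

variable {ι : Type}

lemma exc_isExc {L X N : ℕ} (h : N ∈ Exc L X) : isExc L X N := by
  unfold Exc at h
  rw [mem_union, mem_union] at h
  rcases h with (h | h) | h
  · unfold EA at h
    exact Or.inl (mem_filter.1 h).2
  · unfold EB at h
    rw [mem_biUnion] at h
    obtain ⟨n, hn, h⟩ := h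
    exact Or.inr (Or.inl ⟨n, hn, (mem_filter.1 h).2.2⟩)
  · unfold EC at h
    rw [mem_biUnion] at h
    obtain ⟨k, hk, h⟩ := h
    rw [mem_biUnion] at h
    obtain ⟨J, hJ, h⟩ := h
    exact Or.inr (Or.inr ⟨k, hk, J, hJ, h⟩)

/-- the members with many large gcds in a run -/
lemma card_kJ {T : Finset ι} {t : ι → ℕ} {L H X k J : ℕ} (h : Spr T t (2 ^ (2 * RR L)) H)
    (hδ : (BB L * BB L + 1) ^ 4 ≤ 2 ^ L) (hL : 6 ≤ L) (hk : k ≤ KK L) (hJ : J + 1 ≤ 8 * KK L) :
    (T.filter fun i => t i ∈ badkJ L X k (J + 1)).card * 2 ^ qq L ≤ 2 * H := by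
  have hY : 1 ≤ 2 ^ (2 * RR L) := Nat.one_le_two_pow
  have hP : 0 < PP L k (J + 1) := by unfold PP; positivity
  have h1 := card_badF (X := X) (w := 4 * L) (E := 2 ^ (L + qq L * k)) (J := J + 1) (P := PP L k (J + 1)) h
    Nat.one_le_two_pow (hB L) hY
  have h2 := codes_le_R hδ hL hk hJ
  have h3 := codes_P hδ hk hJ
  have h4 : RR L + qq L + BB L ≤ 2 * RR L := by
    have e1 : RR L = qq L * (9 * (KK L * KK L)) := by unfold RR; ring
    have e2 : BB L = qq L * KK L + 2 := rfl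
    have e3 : 2 ≤ qq L := by unfold qq Th; omega
    have e4 : qq L * (2 + KK L) ≤ qq L * (9 * (KK L * KK L)) := by
      apply Nat.mul_le_mul_left
      unfold KK
      nlinarith
    have e5 : qq L * (2 + KK L) = qq L + qq L + qq L * KK L := by ring
    omega
  unfold badkJ
  set c := (codes (2 ^ L) (2 ^ (qq L * KK L)) (2 ^ (L + qq L * k)) (4 * L) (J + 1)).card
  set s := (T.filter fun i => t i ∈ bad (2 ^ L) (2 ^ (qq L * KK L)) (2 ^ (L + qq L * k)) (4 * L) X (J + 1)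
    (PP L k (J + 1))).card
  generalize PP L k (J + 1) = P at h1 h3 hP ⊢
  have h5 : c * (2 ^ qq L * 2 ^ BB L) ≤ 2 ^ (2 * RR L) := by
    calc c * (2 ^ qq L * 2 ^ BB L) ≤ 2 ^ RR L * (2 ^ qq L * 2 ^ BB L) := Nat.mul_le_mul_right _ h2
      _ = 2 ^ (RR L + qq L + BB L) := by rw [pow_add, pow_add]; ring
      _ ≤ _ := Nat.pow_le_pow_right (by norm_num) h4
  generalize 2 ^ (2 * RR L) = Y at h1 h5 hY ⊢
  generalize (2 ^ L) ^ ((J + 1) * (J + 1)) = u at h1 h3
  generalize 2 ^ qq L = Q at h3 h5 ⊢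
  generalize 2 ^ BB L = B at h1 h5
  have hPY : 0 < P * Y := Nat.mul_pos hP hY
  refine Nat.le_of_mul_le_mul_right ?_ hPY
  calc s * Q * (P * Y) = s * (P * Y) * Q := by ring
    _ ≤ c * (H * (u * Y + B * P)) * Q := Nat.mul_le_mul_right _ h1
    _ = H * (Y * (c * (u * Q)) + P * (c * (Q * B))) := by ring
    _ ≤ H * (Y * P + P * Y) := by gcongr
    _ = 2 * H * (P * Y) := by ring

open Classical in
/-- the number of the exceptional members at the scale `L` -/
theorem card_excF {T : Finset ι} {t : ι → ℕ} {L H X : ℕ} (h : Spr T t (2 ^ (2 * RR L)) H)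
    (hδ : (BB L * BB L + 1) ^ 4 ≤ 2 ^ L) (hL : 6 ≤ L) :
    (T.filter fun i => isExc L X (t i)).card * 2 ^ (2 * L) ≤ H := by
  have hB2 : 16 * (BB L + 1) ≤ 2 ^ L := by
    refine le_trans ?_ hδ
    have h1 : 2 ≤ BB L := by unfold BB; omega
    have h2 : 2 * 2 ≤ BB L * BB L := Nat.mul_le_mul h1 h1
    calc 16 * (BB L + 1) ≤ 5 * 5 * (5 * (BB L * BB L + 1)) := by nlinarith
      _ ≤ (BB L * BB L + 1) * (BB L * BB L + 1) * ((BB L * BB L + 1) * (BB L * BB L + 1)) := by
          gcongr <;> omega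
      _ = (BB L * BB L + 1) ^ 4 := by ring
  have hR : 2 * L + 2 ≤ RR L := by
    have := L_lt_RR L
    have : 2 * L + 2 ≤ 4 * L + 20 := by omega
    omega
  -- the small ones
  have hA : (T.filter fun i => t i < 2 ^ RR L).card * 2 ^ (2 * L + 2) ≤ H := by
    have h1 := cardA h (2 ^ RR L) Nat.one_le_two_pow
    have h2 : (T.filter fun i => t i < 2 ^ RR L).card * 2 ^ RR L ≤ H := by
      refine Nat.le_of_mul_le_mul_left ?_ (show 0 < 2 ^ RR L by positivity)
      calc _ = (T.filter fun i => t i < 2 ^ RR L).card * 2 ^ (2 * RR L) := by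
            rw [two_mul, pow_add]; ring
        _ ≤ _ := h1
    exact (Nat.mul_le_mul_left _ (Nat.pow_le_pow_right (by norm_num) hR)).trans h2
  -- many divisors
  have hBn : ∀ n, ((T.filter fun i => n < 2 * t i ∧ 2 ^ (4 * L) < tau (2 ^ BB L) (2 * t i - n)).card) * 2 ^ (4 * L) ≤
      2 * H * (BB L + 1) := by
    intro n
    apply cardB h
    apply Nat.pow_le_pow_right (by norm_num)
    have e1 : RR L = qq L * (9 * (KK L * KK L)) := by unfold RR; ring
    have e2 : BB L = qq L * KK L + 2 := rfl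
    have e3 : 2 ≤ qq L := by unfold qq Th; omega
    have e4 : qq L * (1 + KK L) ≤ qq L * (9 * (KK L * KK L)) := by
      apply Nat.mul_le_mul_left
      unfold KK
      nlinarith
    have e5 : qq L * (1 + KK L) = qq L + qq L * KK L := by ring
    omega
  have hBt : ((range (2 ^ L + 1)).biUnion fun n => T.filter fun i => n < 2 * t i ∧
      2 ^ (4 * L) < tau (2 ^ BB L) (2 * t i - n)).card * 2 ^ (2 * L + 2) ≤ H := by
    have h5 : 2 ^ L + 1 ≤ 2 ^ (L + 1) := by
      rw [pow_succ]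
      have : 1 ≤ 2 ^ L := Nat.one_le_two_pow
      omega
    have h6 : ((range (2 ^ L + 1)).biUnion fun n => T.filter fun i => n < 2 * t i ∧
        2 ^ (4 * L) < tau (2 ^ BB L) (2 * t i - n)).card * 2 ^ (4 * L) ≤ 2 ^ (L + 1) * (2 * H * (BB L + 1)) := by
      calc _ ≤ (∑ n ∈ range (2 ^ L + 1), (T.filter fun i => n < 2 * t i ∧
            2 ^ (4 * L) < tau (2 ^ BB L) (2 * t i - n)).card) * 2 ^ (4 * L) :=
            Nat.mul_le_mul_right _ card_biUnion_le
        _ = ∑ n ∈ range (2 ^ L + 1), (T.filter fun i => n < 2 * t i ∧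
            2 ^ (4 * L) < tau (2 ^ BB L) (2 * t i - n)).card * 2 ^ (4 * L) := sum_mul _ _ _
        _ ≤ ∑ _n ∈ range (2 ^ L + 1), 2 * H * (BB L + 1) := sum_le_sum fun n _ => hBn n
        _ = (2 ^ L + 1) * (2 * H * (BB L + 1)) := by rw [sum_const, card_range, smul_eq_mul]
        _ ≤ _ := Nat.mul_le_mul_right _ h5
    refine Nat.le_of_mul_le_mul_right ?_ (show 0 < 2 ^ (4 * L) by positivity)
    calc _ = ((range (2 ^ L + 1)).biUnion fun n => T.filter fun i => n < 2 * t i ∧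
          2 ^ (4 * L) < tau (2 ^ BB L) (2 * t i - n)).card * 2 ^ (4 * L) * 2 ^ (2 * L + 2) := by ring
      _ ≤ 2 ^ (L + 1) * (2 * H * (BB L + 1)) * 2 ^ (2 * L + 2) := Nat.mul_le_mul_right _ h6
      _ = H * (2 ^ (3 * L) * (16 * (BB L + 1))) := by
          have e1 : 2 ^ (3 * L) = 2 ^ L * 2 ^ (2 * L) := by rw [← pow_add]; congr 1; ring
          rw [e1, pow_add 2 (2 * L) 2, pow_succ]
          ring
      _ ≤ H * (2 ^ (3 * L) * 2 ^ L) := by gcongr
      _ = H * 2 ^ (4 * L) := by rw [← pow_add]; congr 2; ring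
  -- runs of large gcds
  have hC : ((Icc 1 (KK L)).biUnion fun k => (Icc 1 (8 * KK L)).biUnion fun J =>
      T.filter fun i => t i ∈ badkJ L X k J).card * 2 ^ (2 * L + 2) ≤ 2 * H := by
    have h2 : ∀ k ∈ Icc 1 (KK L), ∀ J ∈ Icc 1 (8 * KK L),
        (T.filter fun i => t i ∈ badkJ L X k J).card * 2 ^ qq L ≤ 2 * H := by
      intro k hk J hJ
      rw [mem_Icc] at hk hJ
      obtain ⟨J', rfl⟩ : ∃ J', J = J' + 1 := ⟨J - 1, by omega⟩
      exact card_kJ h hδ hL hk.2 hJ.2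
    have h3 : ((Icc 1 (KK L)).biUnion fun k => (Icc 1 (8 * KK L)).biUnion fun J =>
        T.filter fun i => t i ∈ badkJ L X k J).card * 2 ^ qq L ≤ KK L * (8 * KK L * (2 * H)) := by
      calc _ ≤ (∑ k ∈ Icc 1 (KK L), ∑ J ∈ Icc 1 (8 * KK L),
            (T.filter fun i => t i ∈ badkJ L X k J).card) * 2 ^ qq L := by
            refine Nat.mul_le_mul_right _ (card_biUnion_le.trans ?_)
            exact sum_le_sum fun k _ => card_biUnion_le
        _ = ∑ k ∈ Icc 1 (KK L), ∑ J ∈ Icc 1 (8 * KK L),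
            (T.filter fun i => t i ∈ badkJ L X k J).card * 2 ^ qq L := by
            rw [sum_mul]
            exact sum_congr rfl fun k _ => sum_mul _ _ _
        _ ≤ ∑ k ∈ Icc 1 (KK L), ∑ J ∈ Icc 1 (8 * KK L), 2 * H :=
            sum_le_sum fun k hk => sum_le_sum fun J hJ => h2 k hk J hJ
        _ = _ := by simp
    have h4 : 8 * (KK L * KK L) * 2 ^ (2 * L + 2) ≤ 2 ^ qq L := by
      have h5 : KK L ≤ 2 ^ (L + 2) := by
        unfold KK
        exact (Nat.lt_two_pow_self).le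
      calc 8 * (KK L * KK L) * 2 ^ (2 * L + 2) ≤ 8 * (2 ^ (L + 2) * 2 ^ (L + 2)) * 2 ^ (2 * L + 2) := by gcongr
        _ = 2 ^ (3 + (L + 2) + (L + 2) + (2 * L + 2)) := by
            rw [pow_add 2 (3 + (L + 2) + (L + 2)) (2 * L + 2), pow_add 2 (3 + (L + 2)) (L + 2),
              pow_add 2 3 (L + 2)]; ring
        _ ≤ _ := Nat.pow_le_pow_right (by norm_num) (by unfold qq Th; nlinarith)
    have hpos : 0 < 2 ^ qq L := by positivity
    refine Nat.le_of_mul_le_mul_right ?_ hpos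
    generalize ((Icc 1 (KK L)).biUnion fun k => (Icc 1 (8 * KK L)).biUnion fun J =>
      T.filter fun i => t i ∈ badkJ L X k J).card = e at h3 ⊢
    generalize 2 ^ qq L = Q at h3 h4 hpos ⊢
    generalize 2 ^ (2 * L + 2) = W at h4 ⊢
    calc e * W * Q = e * Q * W := by ring
      _ ≤ KK L * (8 * KK L * (2 * H)) * W := Nat.mul_le_mul_right _ h3
      _ = 2 * H * (8 * (KK L * KK L) * W) := by ring
      _ ≤ 2 * H * Q := Nat.mul_le_mul_left _ h4
  have hsub : (T.filter fun i => isExc L X (t i)) ⊆ ((T.filter fun i => t i < 2 ^ RR L) ∪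
      ((range (2 ^ L + 1)).biUnion fun n => T.filter fun i => n < 2 * t i ∧
        2 ^ (4 * L) < tau (2 ^ BB L) (2 * t i - n))) ∪
      ((Icc 1 (KK L)).biUnion fun k => (Icc 1 (8 * KK L)).biUnion fun J =>
        T.filter fun i => t i ∈ badkJ L X k J) := by
    intro i hi
    rw [mem_filter] at hi
    obtain ⟨hiT, hi⟩ := hi
    rw [mem_union, mem_union]
    by_cases h0 : t i < 2 ^ RR L
    · exact Or.inl (Or.inl (mem_filter.2 ⟨hiT, h0⟩))
    have hT := T_lt (not_lt.1 h0)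
    rcases hi with h1 | h1 | h1
    · exact absurd h1 h0
    · obtain ⟨n, hn, h1⟩ := h1
      refine Or.inl (Or.inr (mem_biUnion.2 ⟨n, hn, mem_filter.2 ⟨hiT, ?_, h1⟩⟩))
      rw [mem_range] at hn
      omega
    · obtain ⟨k, hk, J, hJ, h1⟩ := h1
      exact Or.inr (mem_biUnion.2 ⟨k, hk, mem_biUnion.2 ⟨J, hJ, mem_filter.2 ⟨hiT, h1⟩⟩⟩)
  have h2 := (card_le_card hsub).trans ((card_union_le _ _).trans (Nat.add_le_add_right (card_union_le _ _) _))
  have h3 := Nat.mul_le_mul_right (2 ^ (2 * L + 2)) h2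
  rw [add_mul, add_mul] at h3
  have h4 : 2 ^ (2 * L + 2) = 2 ^ (2 * L) * 4 := by rw [pow_add]; norm_num
  have h5 : (T.filter fun i => isExc L X (t i)).card * 2 ^ (2 * L + 2) ≤ 4 * H := by
    generalize (T.filter fun i => isExc L X (t i)).card * 2 ^ (2 * L + 2) = e at h3 ⊢
    omega
  rw [h4, ← mul_assoc] at h5
  omega

end Pool.Agent.K7.H67.GBF
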